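import Pool.Agent.Helper78.LD8.Defs

/-!
# LD8 (MP_9056e9), block NUM8: numbers
-/

set_option autoImplicit false

namespace Pool.Agent.Helper80.LD8

open Filter Topology
open Pool.Agent.Helper78.LD8

variable {F : Pm} {K : ℕ}

theorem num_Z (F : Pm) : 1000 ≤ F.Z ∧ F.X + 1 ≤ F.Z ∧ F.d + 4 ≤ F.Z ∧ F.t ≤ F.Z ∧ (F.X + 1) * (F.d + 4) ≤ F.Z := by
  have h1 : (F.X + 1) * (F.d + 4) ≤ F.Z := by
    unfold Pm.Z
    nlinarith [Nat.zero_le ((F.X + 1) * (F.d + 4))]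
  have h2 : F.X + 1 ≤ (F.X + 1) * (F.d + 4) := Nat.le_mul_of_pos_right _ (by omega)
  have h3 : F.d + 4 ≤ (F.X + 1) * (F.d + 4) := Nat.le_mul_of_pos_left _ (by omega)
  have h4 : 1000 * ((F.X + 1) * (F.d + 4)) = F.Z := by
    unfold Pm.Z
    ring
  refine ⟨by omega, by omega, by omega, ?_, h1⟩
  unfold Pm.t
  omega

theorem num_K (hK : F.Big K) : 1000000000000 ≤ K := by
  have h1 := (num_Z F).1
  have h2 : 1000 ^ 4 ≤ F.Z ^ 4 := Nat.pow_le_pow_left h1 4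
  have h3 : F.Z ^ 4 ≤ K := hK
  norm_num at h2
  omega

theorem num_ZK (hK : F.Big K) : F.Z ≤ K ∧ F.Z ^ 4 ≤ K := by
  have h3 : F.Z ^ 4 ≤ K := hK
  exact ⟨(Nat.le_self_pow (by norm_num) _).trans h3, h3⟩

theorem num_e (F : Pm) (K : ℕ) : 4 * K ≤ F.e K ∧ K * (F.d + 1) ≤ F.e K ∧ K * F.t ≤ 2 * F.e K := by
  unfold Pm.e Pm.t
  refine ⟨?_, ?_, ?_⟩
  · exact Nat.mul_le_mul_right K (by omega)
  · rw [mul_comm]
    exact Nat.mul_le_mul_right K (by omega)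
  · have : K * (2 * (F.d + 1)) = (2 * (F.d + 1)) * K := by ring
    rw [this, ← mul_assoc]
    exact Nat.mul_le_mul_right K (by omega)

/-- the squares: `Z² ≤ K` with room -/
private lemma sq_room (hK : F.Big K) : 1000000 * F.Z ^ 2 ≤ K := by
  have h1 := (num_Z F).1
  have h2 : 1000 ^ 2 ≤ F.Z ^ 2 := Nat.pow_le_pow_left h1 2
  have h3 : F.Z ^ 4 ≤ K := hK
  have h4 : F.Z ^ 4 = F.Z ^ 2 * F.Z ^ 2 := by ring
  calc 1000000 * F.Z ^ 2 ≤ F.Z ^ 2 * F.Z ^ 2 := Nat.mul_le_mul_right _ (by norm_num at h2; exact h2)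
    _ ≤ K := h4 ▸ h3

private lemma K_pos (hK : F.Big K) : 0 < K := by
  have := num_K hK
  omega

/-- the first precision is small against the second one -/
theorem num_E (hF : F.Ok) (hK : F.Big K) : 1000 * F.Z * F.e K ≤ F.E K ∧ 1 ≤ F.E K ∧ F.E K ≤ F.b K := by
  have hp := K_pos hK
  have h1 := sq_room hK
  have h2 := (num_Z F).2.2.1
  refine ⟨?_, ?_, ?_⟩
  · unfold Pm.e Pm.E
    have h3 : 1000 * F.Z * ((F.d + 4) * K) = 1000 * (F.Z * (F.d + 4)) * K := by ring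
    have h4 : F.Z * (F.d + 4) ≤ F.Z ^ 2 := by
      rw [pow_two]
      exact Nat.mul_le_mul_left _ h2
    have h5 : 1000 * (F.Z * (F.d + 4)) ≤ K := by
      have := Nat.mul_le_mul_left 1000 h4
      omega
    rw [h3]
    calc 1000 * (F.Z * (F.d + 4)) * K ≤ K * K := Nat.mul_le_mul_right K h5
      _ = K ^ 2 := by ring
      _ ≤ K ^ F.a := Nat.pow_le_pow_right hp hF.ha
  · exact Nat.one_le_pow _ _ hp
  · unfold Pm.E Pm.b
    exact Nat.pow_le_pow_right hp (by omega)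

/-- the delay, the blocks -/
theorem num_r (hF : F.Ok) (hK : F.Big K) : F.r K ^ 2 ≤ F.b K ∧ (F.X + 1) * (3 * F.r K) + 3 < F.b K ∧ 100 * F.E K ≤ F.b K ∧ F.d + 4 ≤ F.r K := by
  have hp := K_pos hK
  have h1 := sq_room hK
  have h1' := (num_Z F).1
  have hX := (num_Z F).2.1
  have hd := (num_Z F).2.2.1
  have hZK := (num_ZK hK).1
  have hE : 1 ≤ K ^ F.a := Nat.one_le_pow _ _ hp
  have hX2 : (F.X + 1) * (F.X + 1) ≤ F.Z ^ 2 := by
    rw [pow_two]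
    exact Nat.mul_le_mul hX hX
  have hb : F.b K = K * (K ^ F.a * K ^ F.a) := by
    unfold Pm.b
    rw [pow_succ, two_mul, pow_add]
    ring
  have hEE : K ^ F.a ≤ K ^ F.a * K ^ F.a := Nat.le_mul_of_pos_right _ (by omega)
  refine ⟨?_, ?_, ?_, ?_⟩
  · rw [hb]
    unfold Pm.r Pm.E
    have e : (5 * F.X * K ^ F.a) ^ 2 = 25 * (F.X * F.X) * (K ^ F.a * K ^ F.a) := by ring
    rw [e]
    refine Nat.mul_le_mul_right _ ?_
    have h3 : F.X * F.X ≤ (F.X + 1) * (F.X + 1) := Nat.mul_le_mul (by omega) (by omega)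
    omega
  · rw [hb]
    unfold Pm.r Pm.E
    have e : (F.X + 1) * (3 * (5 * F.X * K ^ F.a)) = 15 * ((F.X + 1) * F.X) * K ^ F.a := by ring
    rw [e]
    have h3 : (F.X + 1) * F.X ≤ (F.X + 1) * (F.X + 1) := Nat.mul_le_mul_left _ (by omega)
    have h4 : 15 * ((F.X + 1) * F.X) + 3 < K := by omega
    calc 15 * ((F.X + 1) * F.X) * K ^ F.a + 3 ≤ 15 * ((F.X + 1) * F.X) * K ^ F.a + 3 * K ^ F.a := by omega
      _ = (15 * ((F.X + 1) * F.X) + 3) * K ^ F.a := by ring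
      _ < K * K ^ F.a := Nat.mul_lt_mul_of_pos_right h4 (by omega)
      _ ≤ K * (K ^ F.a * K ^ F.a) := Nat.mul_le_mul_left _ hEE
  · rw [hb]
    unfold Pm.E
    have h4 : 100 ≤ K := by
      have := num_K hK
      omega
    calc 100 * K ^ F.a ≤ K * K ^ F.a := Nat.mul_le_mul_right _ h4
      _ ≤ K * (K ^ F.a * K ^ F.a) := Nat.mul_le_mul_left _ hEE
  · unfold Pm.r Pm.E
    have h5 : K ≤ K ^ F.a := Nat.le_self_pow (by have := hF.ha; omega) _
    have h6 : K ^ F.a ≤ 5 * F.X * K ^ F.a := Nat.le_mul_of_pos_left _ (by have := hF.hX; omega)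
    omega

/-- `K` is so large that the polynomials are small against `2 ^ K` -/
theorem num_ev (F : Pm) : ∀ᶠ K : ℕ in atTop, F.Big K ∧ F.Z * F.b K * K ≤ 2 ^ K := by
  have h1 : ∀ᶠ K : ℕ in atTop, F.Z ^ 4 ≤ K := eventually_ge_atTop _
  have h2 := tendsto_pow_const_div_const_pow_of_one_lt (2 * F.a + 2) (r := (2 : ℝ)) (by norm_num)
  have hZ : (0 : ℝ) < F.Z := by
    have := (num_Z F).1
    exact_mod_cast (by omega : 0 < F.Z)
  have h3 : ∀ᶠ K : ℕ in atTop, (K : ℝ) ^ (2 * F.a + 2) / 2 ^ K < 1 / F.Z := h2.eventually_lt_const (by positivity)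
  filter_upwards [h1, h3] with K hK h4
  refine ⟨hK, ?_⟩
  rw [div_lt_div_iff₀ (by positivity) hZ] at h4
  have e : ((F.Z * F.b K * K : ℕ) : ℝ) = (K : ℝ) ^ (2 * F.a + 2) * F.Z := by
    unfold Pm.b
    push_cast
    ring
  have h5 : ((F.Z * F.b K * K : ℕ) : ℝ) ≤ ((2 ^ K : ℕ) : ℝ) := by
    rw [e]
    push_cast
    linarith
  exact_mod_cast h5

end Pool.Agent.Helper80.LD8
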